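import Mathlib
import Pool.Agent.Run7.h404.FL.Iface

/-!
Project FL (helper404), piece SECX: the section over the line fibres extends to a section of the whole space which is
continuous at the points of the line fibres.
-/

set_option autoImplicit false
set_option linter.all false

namespace Run7.h834.FL

open Set Topology Filter
open Run7.h404.FL

theorem t_SECX (hN : S_NEAR) (hS : S_SECL) : S_SECX := by
  classical
  intro Q _ _ Φ p hF
  obtain ⟨σ, hσ1, hσ2⟩ := hS Q Φ p hF
  have hL : IsClosed {q | ¬ Cp p q} := (hN Q Φ p hF).2.2.1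
  obtain ⟨L, hLd⟩ : ∃ L : Set Q, L = {q | ¬ Cp p q} := ⟨_, rfl⟩
  rw [← hLd] at hL hσ2
  have hmem : ∀ q, q ∈ L ↔ ¬ Cp p q := by intro q; rw [hLd]; rfl
  rcases L.eq_empty_or_nonempty with hLe | hLne
  · refine ⟨Function.surjInv hF.psurj, Function.surjInv_eq hF.psurj, fun q hq => ?_⟩
    exfalso
    have : q ∈ L := (hmem q).mpr hq
    rw [hLe] at this
    exact this
  have key : ∀ q, q ∉ L → ∃ x : E5, p x = q ∧ ∃ l ∈ L, ∀ (x' : E5) (l' : Q), p x' = q → l' ∈ L →
      dist x (σ l) + dist q l < dist x' (σ l') + dist q l' + Metric.infDist q L := by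
    intro q hq
    have hpos : 0 < Metric.infDist q L := (hL.notMem_iff_infDist_pos hLne).mp hq
    obtain ⟨l₀, hl₀⟩ := hLne
    obtain ⟨x₀, hx₀⟩ := hF.psurj q
    obtain ⟨S, hSd⟩ : ∃ S : Set ℝ, S = {v | ∃ (x : E5) (l : Q), p x = q ∧ l ∈ L ∧ v = dist x (σ l) + dist q l} :=
      ⟨_, rfl⟩
    have hSne : S.Nonempty := by
      rw [hSd]
      exact ⟨_, x₀, l₀, hx₀, hl₀, rfl⟩
    have hSb : BddBelow S := by
      refine ⟨0, ?_⟩
      rw [hSd]
      rintro v ⟨x, l, _, _, rfl⟩
      positivity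
    obtain ⟨v, hv, hvlt⟩ := Real.lt_sInf_add_pos hSne hpos
    rw [hSd] at hv
    obtain ⟨x, l, hx, hl, rfl⟩ := hv
    refine ⟨x, hx, l, hl, fun x' l' hx' hl' => ?_⟩
    have h1 : sInf S ≤ dist x' (σ l') + dist q l' := by
      apply csInf_le hSb
      rw [hSd]
      exact ⟨x', l', hx', hl', rfl⟩
    linarith
  refine ⟨fun q => if h : q ∈ L then σ q else (key q h).choose, ?_, ?_⟩
  · intro q
    by_cases h : q ∈ L
    · simp only [dif_pos h]
      exact hσ1 q ((hmem q).mp h)
    · simp only [dif_neg h]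
      exact (key q h).choose_spec.1
  · intro q₀ hq₀
    have hq₀L : q₀ ∈ L := (hmem q₀).mpr hq₀
    rw [Metric.continuousAt_iff]
    intro ε hε
    have hc := hσ2 q₀ hq₀L
    rw [Metric.continuousWithinAt_iff] at hc
    obtain ⟨δ, hδ, hδc⟩ := hc (ε / 2) (by positivity)
    obtain ⟨η, hη⟩ : ∃ η, η = min (ε / 8) (δ / 8) := ⟨_, rfl⟩
    have hη0 : 0 < η := by rw [hη]; exact lt_min (by positivity) (by positivity)
    have hη1 : η ≤ ε / 8 := by rw [hη]; exact min_le_left _ _
    have hη2 : η ≤ δ / 8 := by rw [hη]; exact min_le_right _ _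
    have hnb : p '' Metric.ball (σ q₀) η ∈ 𝓝 q₀ := by
      apply (hF.popen _ Metric.isOpen_ball).mem_nhds
      exact ⟨σ q₀, Metric.mem_ball_self hη0, hσ1 q₀ hq₀⟩
    obtain ⟨ρ, hρ, hρb⟩ := Metric.mem_nhds_iff.mp hnb
    refine ⟨min ρ η, lt_min hρ hη0, fun {q} hq => ?_⟩
    have hq1 : dist q q₀ < ρ := lt_of_lt_of_le hq (min_le_left _ _)
    have hq2 : dist q q₀ < η := lt_of_lt_of_le hq (min_le_right _ _)
    simp only [dif_pos hq₀L]
    by_cases h : q ∈ L
    · simp only [dif_pos h]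
      have := hδc h (by linarith : dist q q₀ < δ)
      linarith
    · simp only [dif_neg h]
      obtain ⟨hx, l, hl, hmin⟩ := (key q h).choose_spec
      obtain ⟨x', hx'1, hx'2⟩ := hρb (Metric.mem_ball.mpr hq1)
      rw [Metric.mem_ball] at hx'1
      have h1 := hmin x' q₀ hx'2 hq₀L
      have h2 : Metric.infDist q L ≤ dist q q₀ := Metric.infDist_le_dist_of_mem hq₀L
      have h3 : 0 ≤ dist q l := dist_nonneg
      have h4 : 0 ≤ dist (key q h).choose (σ l) := dist_nonneg
      have h5 : dist l q₀ ≤ dist q l + dist q q₀ := by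
        have := dist_triangle l q q₀
        rw [dist_comm l q] at this
        exact this
      have h6 : dist l q₀ < δ := by linarith
      have h7 := hδc hl h6
      have h8 := dist_triangle (key q h).choose (σ l) (σ q₀)
      linarith

end Run7.h834.FL
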